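import Pool.Agent.Helper81.IdealChomp.Defs
import Pool.Agent.Helper81.IdealChomp.CoordRing

/-!
# Second-player winning rings in Ideal Chomp in every Krull dimension

For every `n` there is an integral domain of Krull dimension `n` on which player B, the second
player, has a winning strategy in the Ideal Chomp Game.

The rings are built by induction.  Given a domain `E` of characteristic zero on which B wins, let
`F` be an algebraic closure of its fraction field, `T = F[x, y]/(y^2 - x^3 - 3 x)` and `M` the
maximal ideal of the point `(1/4, 7/8)` of infinite order; the new ring consists of the `f` in `T`
whose value at that point lies in `E`.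
-/

set_option autoImplicit false

namespace Pool.Agent.Results.MP_ba75bf_co.EveryDimension

open Pool.Agent.Helper81.IdealChomp

/-- For every natural number `n` there is an integral domain `R` of Krull dimension `n` such that
the second player B has a winning strategy `σ` in the Ideal Chomp Game on `R`. -/
theorem result : ∀ n : ℕ, ∃ (R : Type) (_ : CommRing R), IsDomain R ∧ ringKrullDim R = n ∧
    ∃ σ : List R → R, IsWinningStrategyB σ := by
  intro n
  obtain ⟨R, _, hdom, _, hdim, hwin⟩ := exists_ring n
  exact ⟨R, _, hdom, hdim, hwin.exists_strategy⟩

end Pool.Agent.Results.MP_ba75bf_co.EveryDimension
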